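import Pool.Agent.Lcg.Out

/-!
# (BG), deterministic part (helper60)

`ball b z` = the blocks at distance `≤ b` of the block `z`.  The reference vertex of a block is a vertex
joined to the boundary of the `(b + 1)`-neighbourhood.  If the block and its neighbours have reference
vertices, and any two vertices near `z` joined to the boundary of the `b`-neighbourhood are joined to
each other inside it, then the block is good (`Lcg.GoodG` with `a = b + 2`, `l = (b + 1) K`).
-/

set_option autoImplicit false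

namespace Pool.Agent.Bg

open Finset
open Pool.Agent.SRC
open Pool.Agent.Lcg

variable {d : ℕ}

/-- `v` is in the `b`-neighbourhood of the block `z` and has a neighbour outside -/
def Ext (K b : ℤ) (z v : Vx d) : Prop :=
  near b z (blk K v) ∧ ∃ i, ¬ near b z (blk K (v + uv i)) ∨ ¬ near b z (blk K (v - uv i))

/-- `y` is joined to the boundary of the `b`-neighbourhood of `z` inside it -/
def Jn (K b : ℤ) (om : Finset (Ed d)) (z y : Vx d) : Prop :=
  ∃ v, Ext K b z v ∧ conn (↑(inS K om (ball b z))) y v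

/-- two vertices near `z` joined to the boundary of the `b`-neighbourhood but not to each other -/
def Two (K b : ℤ) (om : Finset (Ed d)) (z : Vx d) : Prop :=
  ∃ x y, near 1 z (blk K x) ∧ near 1 z (blk K y) ∧ Jn K b om z x ∧ Jn K b om z y ∧
    ¬ conn (↑(inS K om (ball b z))) x y

/-- the block `z` has a vertex joined to the boundary of its `b`-neighbourhood -/
def Mk (K b : ℤ) (om : Finset (Ed d)) (z : Vx d) : Prop := ∃ y, blk K y = z ∧ Jn K b om z y

open Classical in
/-- a vertex with property `P`, `w` if there is none -/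
noncomputable def pick (P : Vx d → Prop) (w : Vx d) : Vx d :=
  if h : ∃ y, P y then h.choose else w

/-- the reference vertex -/
noncomputable def ref (K b : ℤ) (om : Finset (Ed d)) (z : Vx d) : Vx d :=
  pick (fun y => blk K y = z ∧ Jn K b om z y) fun i => K * z i

theorem ref_spec {K b : ℤ} {om : Finset (Ed d)} {z : Vx d} (h : Mk K b om z) :
    blk K (ref K b om z) = z ∧ Jn K b om z (ref K b om z) := by
  have h' : ∃ y, (fun y => blk K y = z ∧ Jn K b om z y) y := h
  unfold ref pick
  rw [dif_pos h']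
  exact h'.choose_spec

theorem near_blk_adj {K : ℤ} (hK : 0 < K) {ω : Set (Ed d)} {x y : Vx d} (h : adj ω x y) :
    near 1 (blk K x) (blk K y) := by
  obtain ⟨i, ⟨_, h⟩ | ⟨_, h⟩⟩ := h
  · rw [h]
    rcases blk_tip hK ((x, i) : Ed d) with h1 | h1
    · have h2 : blk K (x + uv i) = blk K x := h1
      rw [h2]
      exact near_refl (by norm_num) _
    · have h2 : blk K (x + uv i) = blk K x + uv i := h1
      rw [h2]
      exact near_uv _ _
  · rw [h]
    refine near_symm ?_
    rcases blk_tip hK ((y, i) : Ed d) with h1 | h1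
    · have h2 : blk K (y + uv i) = blk K y := h1
      rw [h2]
      exact near_refl (by norm_num) _
    · have h2 : blk K (y + uv i) = blk K y + uv i := h1
      rw [h2]
      exact near_uv _ _

/-- first exit -/
theorem exit_or {K b : ℤ} {om : Finset (Ed d)} {z y w : Vx d} (hy : near b z (blk K y))
    (h : conn (↑om) y w) :
    Jn K b om z y ∨ (near b z (blk K w) ∧ conn (↑(inS K om (ball b z))) y w) := by
  unfold conn at h
  induction h with
  | refl => exact Or.inr ⟨hy, conn_refl _ _⟩
  | @tail p q _ hpq ih =>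
    rcases ih with ih | ⟨h1, h2⟩
    · exact Or.inl ih
    by_cases h3 : near b z (blk K q)
    · right
      refine ⟨h3, conn_trans h2 (Relation.ReflTransGen.single ?_)⟩
      obtain ⟨i, ⟨h4, h5⟩ | ⟨h4, h5⟩⟩ := hpq
      · refine ⟨i, Or.inl ⟨?_, h5⟩⟩
        rw [Finset.mem_coe, mem_inS]
        refine ⟨h4, h1, ?_⟩
        show near b z (blk K (p + uv i))
        rw [← h5]
        exact h3
      · refine ⟨i, Or.inr ⟨?_, h5⟩⟩
        rw [Finset.mem_coe, mem_inS]
        refine ⟨h4, h3, ?_⟩
        show near b z (blk K (q + uv i))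
        rw [← h5]
        exact h1
    · left
      refine ⟨p, ⟨h1, ?_⟩, h2⟩
      obtain ⟨i, ⟨_, h5⟩ | ⟨_, h5⟩⟩ := hpq
      · exact ⟨i, Or.inl (by rw [← h5]; exact h3)⟩
      · refine ⟨i, Or.inr ?_⟩
        have h6 : p - uv i = q := by rw [h5]; abel
        rw [h6]
        exact h3

theorem inS_inS {K : ℤ} {om : Finset (Ed d)} {S T : Set (Vx d)} (h : S ⊆ T) :
    inS K (inS K om T) S = inS K om S := by
  ext e
  rw [mem_inS, mem_inS, mem_inS]
  constructor
  · rintro ⟨⟨h1, _, _⟩, h4, h5⟩
    exact ⟨h1, h4, h5⟩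
  · rintro ⟨h1, h4, h5⟩
    exact ⟨⟨h1, h h4, h h5⟩, h4, h5⟩

theorem Jn_mono {K b : ℤ} {om om' : Finset (Ed d)} (h : om ⊆ om') {z y : Vx d}
    (hj : Jn K b om z y) : Jn K b om' z y := by
  obtain ⟨v, h1, h2⟩ := hj
  refine ⟨v, h1, conn_mono ?_ h2⟩
  intro e he
  rw [Finset.mem_coe, mem_inS] at he ⊢
  exact ⟨h he.1, he.2⟩

/-- a vertex joined to the boundary of a larger neighbourhood is joined to that of a smaller one -/
theorem Jn_sub {K b b' : ℤ} {om : Finset (Ed d)} {z z' y : Vx d}
    (hs : ball b z ⊆ ball b' z') (hy : near b z (blk K y)) (hj : Jn K b' om z' y) :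
    Jn K b om z y := by
  obtain ⟨v, ⟨_, i, hi⟩, h2⟩ := hj
  rcases exit_or (b := b) (z := z) hy h2 with h | ⟨h3, h4⟩
  · obtain ⟨w, h5, h6⟩ := h
    refine ⟨w, h5, ?_⟩
    rw [inS_inS hs] at h6
    exact h6
  · refine ⟨v, ⟨h3, i, ?_⟩, ?_⟩
    · rcases hi with hi | hi
      · exact Or.inl fun h => hi (hs h)
      · exact Or.inr fun h => hi (hs h)
    · rw [inS_inS hs] at h4
      exact h4

theorem blk_far {K b : ℤ} (hK : 0 < K) {z y v : Vx d} (hy : blk K y = z)
    (hv : near b z (blk K v)) (i : Fin d) : |v i - y i| < (b + 1) * K := by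
  have h1 : |z i - v i / K| ≤ b := hv i
  have h2 : y i / K = z i := congrFun hy i
  have e1 : K * (y i / K) ≤ y i := Int.mul_ediv_self_le hK.ne'
  have e2 : y i < K * (y i / K) + K := Int.lt_mul_ediv_self_add hK
  have e3 : K * (v i / K) ≤ v i := Int.mul_ediv_self_le hK.ne'
  have e4 : v i < K * (v i / K) + K := Int.lt_mul_ediv_self_add hK
  rw [h2] at e1 e2
  rw [abs_le] at h1
  have h3 : K * (v i / K) ≤ K * (z i + b) := mul_le_mul_of_nonneg_left (by linarith) hK.le
  have h4 : K * (z i - b) ≤ K * (v i / K) := mul_le_mul_of_nonneg_left (by linarith) hK.le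
  rw [abs_lt]
  constructor <;> nlinarith

/-- **(BG), deterministic part** -/
theorem good_of {K b : ℤ} (hK : 0 < K) (hb : 1 ≤ b) {lo hi : Vx d} {om De : Finset (Ed d)}
    (hDe : De ⊆ om) {z : Vx d} (h0 : Mk K (b + 1) om z) (h1 : ∀ i, Mk K (b + 1) om (z + uv i))
    (h2 : ¬ Two K b om z) :
    GoodG K (b + 2) ((b + 1) * K) lo hi (ref K (b + 1)) om De z := by
  have hsub : (↑(inS K om (ball b z)) : Set (Ed d)) ⊆ ↑(inS K om (ball (b + 2) z)) := by
    refine Finset.coe_subset.mpr (inS_mono ?_)
    intro w hw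
    exact near_mono (by linarith) hw
  obtain ⟨r1, r2⟩ := ref_spec h0
  have hz : near b z (blk K (ref K (b + 1) om z)) := by
    rw [r1]
    exact near_refl (by linarith) z
  have hz1 : near 1 z (blk K (ref K (b + 1) om z)) := by
    rw [r1]
    exact near_refl (by norm_num) z
  have j0 : Jn K b om z (ref K (b + 1) om z) :=
    Jn_sub (fun w hw => near_mono (by linarith) hw) hz r2
  refine ⟨fun i _ => ?_, fun y hy hf => ?_⟩
  · obtain ⟨s1, s2⟩ := ref_spec (h1 i)
    have hi1 : near 1 z (blk K (ref K (b + 1) om (z + uv i))) := by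
      rw [s1]
      exact near_uv z i
    have j1 : Jn K b om z (ref K (b + 1) om (z + uv i)) := by
      refine Jn_sub ?_ (near_mono hb hi1) s2
      intro w hw
      have h3 := near_trans (near_symm (near_uv z i)) hw
      exact near_mono (by linarith) h3
    by_contra hcon
    exact h2 ⟨_, _, hz1, hi1, j0, j1, fun h => hcon (conn_mono hsub h)⟩
  · have hyb : near b z (blk K y) := by
      rw [hy]
      exact near_refl (by linarith) z
    have hy1 : near 1 z (blk K y) := by
      rw [hy]
      exact near_refl (by norm_num) z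
    obtain ⟨v, hv, i, hi⟩ := hf
    have j1 : Jn K b De z y := by
      rcases exit_or (b := b) (z := z) hyb hv with h | ⟨h3, _⟩
      · obtain ⟨w, h5, h6⟩ := h
        refine ⟨w, h5, ?_⟩
        have h7 : ball b z ⊆ ball (b + 2) z := fun w hw => near_mono (by linarith) hw
        rw [inS_inS h7] at h6
        exact h6
      · exact absurd (blk_far hK hy h3 i) (not_lt.mpr hi)
    by_contra hcon
    exact h2 ⟨_, _, hy1, hz1, Jn_mono hDe j1, j0, fun h => hcon (conn_mono hsub h)⟩

/-! ### locality -/

theorem Jn_congr {K b : ℤ} {om om' : Finset (Ed d)} {z : Vx d}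
    (h : inS K om (ball b z) = inS K om' (ball b z)) (y : Vx d) :
    Jn K b om z y ↔ Jn K b om' z y := by
  unfold Jn
  rw [h]

theorem ref_congr {K b : ℤ} {om om' : Finset (Ed d)} {z : Vx d}
    (h : inS K om (ball b z) = inS K om' (ball b z)) : ref K b om z = ref K b om' z := by
  have h1 : (fun y => blk K y = z ∧ Jn K b om z y) = fun y => blk K y = z ∧ Jn K b om' z y := by
    funext y
    rw [Jn_congr h]
  unfold ref
  rw [h1]

theorem inS_congr_sub {K : ℤ} {om om' : Finset (Ed d)} {S T : Set (Vx d)} (h : S ⊆ T)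
    (hT : inS K om T = inS K om' T) : inS K om S = inS K om' S := by
  rw [← inS_inS h, hT, inS_inS h]

/-- badness of a block depends only on `om`, `De` in its `(b + 2)`-neighbourhood -/
theorem good_congr {K b : ℤ} {lo hi : Vx d} {om De om' De' : Finset (Ed d)} {z : Vx d}
    (h1 : inS K om (ball (b + 2) z) = inS K om' (ball (b + 2) z))
    (h2 : inS K De (ball (b + 2) z) = inS K De' (ball (b + 2) z)) :
    GoodG K (b + 2) ((b + 1) * K) lo hi (ref K (b + 1)) om De z ↔
      GoodG K (b + 2) ((b + 1) * K) lo hi (ref K (b + 1)) om' De' z := by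
  refine GoodG_congr h1 h2 (ref_congr ?_) fun i => ref_congr ?_
  · exact inS_congr_sub (fun w hw => near_mono (by linarith) hw) h1
  · refine inS_congr_sub ?_ h1
    intro w hw
    have h3 := near_trans (near_uv z i) hw
    exact near_mono (by linarith) h3

/-! ### the neighbourhood of a block as a box of vertices -/

/-- vertices in the blocks of `ball b z` -/
noncomputable def Vb (K b : ℤ) (z : Vx d) : Finset (Vx d) :=
  Finset.Icc (fun i => K * (z i - b)) (fun i => K * (z i + b + 1) - 1)

theorem mem_Vb {K b : ℤ} (hK : 0 < K) {z v : Vx d} : v ∈ Vb K b z ↔ near b z (blk K v) := by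
  unfold Vb
  rw [Finset.mem_Icc, Pi.le_def, Pi.le_def]
  have key : ∀ i, (K * (z i - b) ≤ v i ∧ v i ≤ K * (z i + b + 1) - 1) ↔
      |z i - blk K v i| ≤ b := by
    intro i
    show _ ↔ |z i - v i / K| ≤ b
    rw [abs_le]
    have h1 : K * (z i - b) ≤ v i ↔ z i - b ≤ v i / K := by
      rw [Int.le_ediv_iff_mul_le hK, mul_comm]
    have h2 : v i ≤ K * (z i + b + 1) - 1 ↔ v i / K < z i + b + 1 := by
      rw [Int.ediv_lt_iff_lt_mul hK, mul_comm (z i + b + 1)]
      omega
    rw [h1, h2]
    omega
  constructor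
  · rintro ⟨h1, h2⟩ i
    exact (key i).mp ⟨h1 i, h2 i⟩
  · intro h
    exact ⟨fun i => ((key i).mpr (h i)).1, fun i => ((key i).mpr (h i)).2⟩

theorem inS_ball {K b : ℤ} (hK : 0 < K) {om : Finset (Ed d)} {z : Vx d} :
    inS K om (ball b z) = om ∩ edg (Vb K b z) := by
  ext e
  rw [mem_inS, Finset.mem_inter, mem_edg, mem_Vb hK, mem_Vb hK]
  exact Iff.rfl

end Pool.Agent.Bg
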