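import Pool.Agent.Bg.Prob
import Pool.Agent.Bg.Det

/-!
# Block BG: the bad blocks of `Lcg.exists_G` are bad in the sense of `BE` (helper9, on helper60's `Det`)
-/

set_option autoImplicit false

namespace Pool.Agent.Bg

open Finset
open Pool.Agent.SRC
open Pool.Agent.Lcg (blk inS ball mem_inS GoodG BadG mem_BadG)

variable {d : ℕ}

theorem inS_ball_RB {K b : ℕ} (hK : 1 ≤ K) {om : Finset (Ed d)} {z : Vx d} :
    inS (K : ℤ) om (ball (b : ℤ) z) = om ∩ edg (RB K b z) := by
  ext e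
  rw [mem_inS, Finset.mem_inter, mem_edg, mem_RB_iff hK, mem_RB_iff hK]
  rfl

theorem mem_cbd_iff {K b : ℕ} {z v : Vx d} :
    v ∈ Uni.cbd (lc K b z) (sd K b) ↔ v ∈ RB K b z ∧ ∃ i, v i = (K : ℤ) * (z i - b) ∨
      v i = (K : ℤ) * (z i + b + 1) - 1 := by
  rw [Uni.mem_cbd]
  refine and_congr Iff.rfl (exists_congr fun i => ?_)
  unfold lc sd
  push_cast
  have e : (K : ℤ) * (z i - b) + (2 * b + 1) * K - 1 = (K : ℤ) * (z i + b + 1) - 1 := by ring
  rw [e]

theorem Ext_iff {K b : ℕ} (hK : 1 ≤ K) {z v : Vx d} :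
    Ext (K : ℤ) (b : ℤ) z v ↔ v ∈ Uni.cbd (lc K b z) (sd K b) := by
  unfold Ext
  rw [mem_cbd_iff, ← mem_RB_iff hK]
  refine and_congr_right fun hv => exists_congr fun i => ?_
  rw [← mem_RB_iff hK, ← mem_RB_iff hK]
  have hv' := mem_RB.1 hv
  constructor
  · rintro (h | h)
    · rw [mem_RB] at h
      push Not at h
      obtain ⟨j, hj⟩ := h
      have h1 := hv' j
      have h2 : (v + uv i) j = v j + (uv i : Vx d) j := rfl
      rw [h2, uv_app] at hj
      by_cases hji : j = i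
      · subst hji
        rw [if_pos rfl] at hj
        have := hj (by linarith)
        right
        linarith [h1.2]
      · rw [if_neg hji, add_zero] at hj
        have := hj h1.1
        linarith [h1.2]
    · rw [mem_RB] at h
      push Not at h
      obtain ⟨j, hj⟩ := h
      have h1 := hv' j
      have h2 : (v - uv i) j = v j - (uv i : Vx d) j := rfl
      rw [h2, uv_app] at hj
      by_cases hji : j = i
      · subst hji
        rw [if_pos rfl] at hj
        left
        by_contra hne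
        have h3 : (K : ℤ) * (z j - b) < v j := lt_of_le_of_ne h1.1 (Ne.symm hne)
        have := hj (by linarith)
        linarith [h1.2]
      · rw [if_neg hji, sub_zero] at hj
        have := hj h1.1
        linarith [h1.2]
  · rintro (h | h)
    · right
      intro h'
      have h1 := (mem_RB.1 h' i).1
      have h2 : (v - uv i) i = v i - (uv i : Vx d) i := rfl
      rw [h2, uv_app, if_pos rfl] at h1
      linarith
    · left
      intro h'
      have h1 := (mem_RB.1 h' i).2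
      have h2 : (v + uv i) i = v i + (uv i : Vx d) i := rfl
      rw [h2, uv_app, if_pos rfl] at h1
      linarith

theorem Jn_iff {K b : ℕ} (hK : 1 ≤ K) {om : Finset (Ed d)} {z y : Vx d} :
    Jn (K : ℤ) (b : ℤ) om z y ↔ Uni.jn (Uni.cbd (lc K b z) (sd K b)) (om ∩ edg (RB K b z)) y := by
  unfold Jn Uni.jn
  refine exists_congr fun v => ?_
  rw [Ext_iff hK, inS_ball_RB hK]

theorem Mk_iff {K b : ℕ} (hK : 1 ≤ K) {om : Finset (Ed d)} {z : Vx d} :
    Mk (K : ℤ) (b : ℤ) om z ↔ ¬ NJ K b z om := by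
  unfold Mk NJ
  rw [not_not]
  refine exists_congr fun y => ?_
  rw [Jn_iff hK]

theorem near_half {K : ℕ} (hK : 1 ≤ K) {z x : Vx d} (h : Lcg.near 1 z (blk (K : ℤ) x)) (i : Fin d) :
    4 * lc K 4 z i + (sd K 4 : ℤ) ≤ 4 * x i ∧ 4 * x i ≤ 4 * lc K 4 z i + 3 * (sd K 4 : ℤ) := by
  have h1 : x ∈ RB K 1 z := (mem_RB_iff hK).2 h
  have h2 := mem_RB.1 h1 i
  have h3 : (1 : ℤ) ≤ (K : ℤ) := by exact_mod_cast hK
  unfold lc sd
  push_cast at h2 ⊢
  constructor <;> linarith

theorem Two_of {K : ℕ} (hK : 1 ≤ K) {om : Finset (Ed d)} {z : Vx d} (h : Two (K : ℤ) (4 : ℕ) om z) :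
    Uni.Two (lc K 4 z) (sd K 4) (om ∩ edg (RB K 4 z)) := by
  obtain ⟨x, y, h1, h2, h3, h4, h5⟩ := h
  rw [Jn_iff hK] at h3 h4
  rw [inS_ball_RB hK] at h5
  exact ⟨x, y, near_half hK h1, near_half hK h2, h3, h4, h5⟩

/-- a block which is not bad is good -/
theorem good_of_BE {K : ℕ} (hK : 1 ≤ K) {lo hi : Vx d} {om De : Finset (Ed d)} (hDe : De ⊆ om)
    {z : Vx d} (h : ¬ BE K 4 z om) :
    GoodG (K : ℤ) 6 (5 * K) lo hi (ref K 5) om De z := by
  have hK0 : (0 : ℤ) < (K : ℤ) := by exact_mod_cast hK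
  unfold BE at h
  push Not at h
  obtain ⟨h1, h2, h3⟩ := h
  have key := good_of (K := (K : ℤ)) (b := 4) hK0 (by norm_num) (lo := lo) (hi := hi) hDe (z := z)
    ((Mk_iff (b := 5) hK).2 h2) (fun i => (Mk_iff (b := 5) hK).2 (h3 i))
    (fun h4 => h1 (Two_of hK h4))
  exact key

/-- the bad blocks are contained in the blocks with `BE` -/
theorem BE_of_bad {K : ℕ} (hK : 1 ≤ K) {lo hi : Vx d} {om De : Finset (Ed d)} (hDe : De ⊆ om)
    {z : Vx d} (h : z ∈ BadG (K : ℤ) 6 (5 * K) lo hi (ref K 5) om De) : BE K 4 z om := by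
  by_contra hcon
  exact (mem_BadG.1 h).2 (good_of_BE hK hDe hcon)

end Pool.Agent.Bg
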