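import Pool.Agent.Uni.Defs
import Pool.Agent.Drt.Prod
import Pool.Agent.Lcg.Out
import Pool.Agent.S1.Ifc

/-!
# Block BG: bad blocks (helper9)

`K` = side of a block, `blk K x` = block of the vertex `x` (Lcg), `RB K b z` = the vertices of the blocks at sup
distance at most `b` from `z`.
-/

set_option autoImplicit false

namespace Pool.Agent.Bg

open Finset
open Pool.Agent.SRC
open Pool.Agent.Uni (jn cb cbd Two Tiles)
open Pool.Agent.Drt (Q3)
open Pool.Agent.Lcg (blk)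

variable {d : ℕ}

/-- lower corner of the `b`-neighbourhood of the block `z` -/
def lc (K b : ℕ) (z : Vx d) : Vx d := fun i => (K : ℤ) * (z i - (b : ℤ))

/-- its side -/
def sd (K b : ℕ) : ℕ := (2 * b + 1) * K

/-- the vertices of the blocks at distance at most `b` from `z` -/
noncomputable def RB (K b : ℕ) (z : Vx d) : Finset (Vx d) := cb (lc K b z) (sd K b)

/-- no vertex of the block `z` is joined to the inner boundary of `RB K b z` inside it -/
def NJ (K b : ℕ) (z : Vx d) (ω : Finset (Ed d)) : Prop :=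
  ¬ ∃ x, blk (K : ℤ) x = z ∧ jn (cbd (lc K b z) (sd K b)) (ω ∩ edg (RB K b z)) x

/-- the bad event of the block `z` -/
def BE (K b : ℕ) (z : Vx d) (ω : Finset (Ed d)) : Prop :=
  Two (lc K b z) (sd K b) (ω ∩ edg (RB K b z)) ∨ NJ K (b + 1) z ω ∨ ∃ i, NJ K (b + 1) (z + uv i) ω

/-- one cluster of `ω` meets every cube of side `k` of `RB K b z` -/
def Vs (k K b : ℕ) (z : Vx d) (ω : Finset (Ed d)) : Prop :=
  ∃ u, ∀ c' : Vx d, cb c' k ⊆ RB K b z → ∃ y ∈ cb c' k, conn (↑ω : Set (Ed d)) u y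

/-- (VIS): for the sourceless double current in a cube of side `(2 (b + 1) + 1) K` one cluster meets every
cube of side `k = o (log K)` of the concentric cube, with failure probability `O (K ^ -C)` -/
def VIS (d : ℕ) (x : ℝ) : Prop :=
  ∀ (b C : ℕ) (δ : ℝ), 0 < δ → ∃ K0 : ℕ, ∀ K : ℕ, K0 ≤ K → ∃ k : ℕ, 1 ≤ k ∧ (k : ℝ) ≤ δ * Real.log K ∧
    ∀ z : Vx d, (K : ℝ) ^ C * Q3 x (x ^ 2) (edg (RB K (b + 1) z)) 0 0
        (fun n1 n2 c => ind (¬ Vs k K b z (n1 ∪ n2 ∪ c))) ≤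
      ZZ (loopM x) (edg (RB K (b + 1) z)) 0 * ZZ (loopM x) (edg (RB K (b + 1) z)) 0

/-- (U): uniqueness of the boundary clusters for a fixed environment `Θ` and Bernoulli(`s`) coins -/
def UU (d : ℕ) (s : ℝ) : Prop :=
  ∀ ε : ℝ, 0 < ε → ∃ δ : ℝ, 0 < δ ∧ ∃ n0 : ℕ, ∀ n k : ℕ, n0 ≤ n → 1 ≤ k → (k : ℝ) ≤ δ * Real.log n →
    ∀ (a : Vx d) (Θ : Finset (Ed d)), Θ ⊆ edg (cb a n) →
      EB s (edg (cb a n)) (fun c => ind (Two a n (Θ ∪ c))) ≤
        ε + (n : ℝ) ^ (d + 3) * EB s (edg (cb a n)) (fun c => ind (¬ Tiles a n k (Θ ∪ c)))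

/-- `S` vanishes in the interior of `RB K b z` -/
def Out (K b : ℕ) (z : Vx d) (S : Vx d → ZMod 2) : Prop :=
  ∀ v, (∀ i, lc K b z i < v i ∧ v i < lc K b z i + (sd K b : ℤ) - 1) → S v = 0

/-- (BG): every block is bad with probability at most `ε`, for all sources on the boundary of `RB K 8 z` -/
def BGP (d : ℕ) (x : ℝ) : Prop :=
  ∀ ε : ℝ, 0 < ε → ∃ K0 : ℕ, ∀ K : ℕ, K0 ≤ K → ∀ (z : Vx d) (S1 S2 : Vx d → ZMod 2),
    Out K 8 z S1 → Out K 8 z S2 →
    Q3 x (x ^ 2) (edg (RB K 8 z)) S1 S2 (fun n1 n2 c => ind (BE K 4 z (n1 ∪ n2 ∪ c))) ≤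
      ε * (ZZ (loopM x) (edg (RB K 8 z)) S1 * ZZ (loopM x) (edg (RB K 8 z)) S2)

theorem blk_eq {K : ℕ} (hK : 1 ≤ K) {x z : Vx d} :
    blk (K : ℤ) x = z ↔ ∀ i, (K : ℤ) * z i ≤ x i ∧ x i < (K : ℤ) * z i + K := by
  have hK0 : (0 : ℤ) < (K : ℤ) := by exact_mod_cast hK
  constructor
  · intro h i
    have h1 : x i / (K : ℤ) = z i := congrFun h i
    have h2 := Int.emod_add_mul_ediv (x i) (K : ℤ)
    have h3 := Int.emod_nonneg (x i) hK0.ne'
    have h4 := Int.emod_lt_of_pos (x i) hK0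
    rw [h1] at h2
    constructor <;> linarith
  · intro h
    funext i
    show x i / (K : ℤ) = z i
    obtain ⟨h1, h2⟩ := h i
    exact le_antisymm
      (Int.lt_add_one_iff.1 (Int.ediv_lt_of_lt_mul hK0 (by linarith [mul_comm (K : ℤ) (z i)])))
      (Int.le_ediv_of_mul_le hK0 (by linarith [mul_comm (K : ℤ) (z i)]))

theorem mem_RB {K b : ℕ} {z x : Vx d} :
    x ∈ RB K b z ↔ ∀ i, (K : ℤ) * (z i - b) ≤ x i ∧ x i < (K : ℤ) * (z i + b + 1) := by
  unfold RB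
  rw [Pool.Agent.Uni.mem_cb]
  refine forall_congr' fun i => ?_
  unfold lc sd
  push_cast
  constructor
  · rintro ⟨h1, h2⟩
    refine ⟨h1, h2.trans_le (le_of_eq ?_)⟩
    ring
  · rintro ⟨h1, h2⟩
    refine ⟨h1, h2.trans_le (le_of_eq ?_)⟩
    ring

theorem mem_RB_iff {K b : ℕ} (hK : 1 ≤ K) {z x : Vx d} :
    x ∈ RB K b z ↔ Pool.Agent.Lcg.near (b : ℤ) z (blk (K : ℤ) x) := by
  have hK0 : (0 : ℤ) < (K : ℤ) := by exact_mod_cast hK
  rw [mem_RB]
  unfold Pool.Agent.Lcg.near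
  refine forall_congr' fun i => ?_
  have h1 := (blk_eq hK (x := x)).1 rfl i
  have e : blk (K : ℤ) x i = x i / (K : ℤ) := rfl
  set q := blk (K : ℤ) x i with hq
  constructor
  · rintro ⟨h2, h3⟩
    rw [abs_le]
    have h4 : (K : ℤ) * (z i - b) < (K : ℤ) * (q + 1) := by linarith
    have h5 : (K : ℤ) * q < (K : ℤ) * (z i + b + 1) := by linarith
    have h6 := lt_of_mul_lt_mul_left h4 hK0.le
    have h7 := lt_of_mul_lt_mul_left h5 hK0.le
    constructor <;> omega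
  · intro h2
    rw [abs_le] at h2
    have h3 : (K : ℤ) * (z i - b) ≤ (K : ℤ) * q := mul_le_mul_of_nonneg_left (by linarith) hK0.le
    have h4 : (K : ℤ) * (q + 1) ≤ (K : ℤ) * (z i + b + 1) :=
      mul_le_mul_of_nonneg_left (by linarith) hK0.le
    constructor <;> linarith

end Pool.Agent.Bg
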