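import Pool.Agent.Bg.Defs
import Pool.Agent.Rm.Rm

/-!
# Block BG: probability of a bad block (helper9)

`(U)`, `(VIS)` and `(FAC)` give `(BG)`.
-/

set_option autoImplicit false

namespace Pool.Agent.Bg

open Finset
open Pool.Agent.SRC
open Pool.Agent.Uni (jn cb cbd Two Tiles mem_cb mem_cbd)
open Pool.Agent.Drt (Q3)
open Pool.Agent.Lcg (blk)

variable {d : ℕ}

/-! ## deterministic part -/

theorem uv_app (i j : Fin d) : (uv i : Vx d) j = if j = i then 1 else 0 := by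
  unfold uv
  rw [Pi.single_apply]

/-- a path which leaves a cube meets its inner boundary inside the cube -/
theorem exit_cb {a : Vx d} {n : ℕ} {ω : Finset (Ed d)} {y w : Vx d} (hy : y ∈ cb a n)
    (hw : w ∉ cb a n) (hc : conn (↑ω : Set (Ed d)) y w) : jn (cbd a n) (ω ∩ edg (cb a n)) y := by
  have key : ∀ v, conn (↑ω : Set (Ed d)) y v →
      (v ∈ cb a n ∧ conn (↑(ω ∩ edg (cb a n)) : Set (Ed d)) y v) ∨
        jn (cbd a n) (ω ∩ edg (cb a n)) y := by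
    intro v hv
    unfold conn at hv
    induction hv with
    | refl => exact Or.inl ⟨hy, conn_refl _ _⟩
    | @tail p q _ hst ih =>
      rcases ih with ⟨h1, h2⟩ | h
      · obtain ⟨i, hi⟩ := hst
        by_cases hq : q ∈ cb a n
        · refine Or.inl ⟨hq, Relation.ReflTransGen.tail h2 ?_⟩
          rcases hi with ⟨h3, h4⟩ | ⟨h3, h4⟩
          · refine ⟨i, Or.inl ⟨?_, h4⟩⟩
            rw [Finset.coe_inter]
            refine ⟨h3, ?_⟩
            rw [Finset.mem_coe, mem_edg]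
            refine ⟨h1, ?_⟩
            have : tip ((p, i) : Ed d) = q := by rw [h4]; rfl
            rw [this]
            exact hq
          · refine ⟨i, Or.inr ⟨?_, h4⟩⟩
            rw [Finset.coe_inter]
            refine ⟨h3, ?_⟩
            rw [Finset.mem_coe, mem_edg]
            refine ⟨hq, ?_⟩
            have : tip ((q, i) : Ed d) = p := by rw [h4]; rfl
            rw [this]
            exact h1
        · refine Or.inr ⟨p, mem_cbd.2 ⟨h1, i, ?_⟩, h2⟩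
          rw [mem_cb] at h1
          rw [mem_cb] at hq
          push Not at hq
          obtain ⟨j, hj⟩ := hq
          rcases hi with ⟨_, h4⟩ | ⟨_, h4⟩
          · have h5 : q j = p j + (uv i : Vx d) j := by rw [h4]; rfl
            rw [uv_app] at h5
            by_cases hji : j = i
            · rw [if_pos hji] at h5
              have h6 := h1 j
              have h7 := hj (by linarith)
              subst hji
              right
              omega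
            · rw [if_neg hji, add_zero] at h5
              have h6 := h1 j
              have h7 := hj (by linarith)
              omega
          · have h5 : p j = q j + (uv i : Vx d) j := by rw [h4]; rfl
            rw [uv_app] at h5
            by_cases hji : j = i
            · rw [if_pos hji] at h5
              have h6 := h1 j
              subst hji
              left
              by_contra hne
              have h7 := hj (by omega)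
              omega
            · rw [if_neg hji, add_zero] at h5
              have h6 := h1 j
              have h7 := hj (by linarith)
              omega
      · exact Or.inr h
  rcases key w hc with ⟨h, _⟩ | h
  · exact absurd h hw
  · exact h

/-- if one cluster meets every small cube of `RB K 7 z`, then every small cube `X` inside a cube
`cb a n ⊆ RB K 6 z` has a vertex joined to the boundary of `cb a n` -/
theorem jn_of_Vs (hd : 1 ≤ d) {k K : ℕ} (hkK : k ≤ K) {z : Vx d} {ω : Finset (Ed d)}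
    (h : Vs k K 7 z ω) {a : Vx d} {n : ℕ} (ha : cb a n ⊆ RB K 6 z) {c : Vx d} (hc : cb c k ⊆ cb a n) :
    ∃ x ∈ cb c k, jn (cbd a n) (ω ∩ edg (cb a n)) x := by
  obtain ⟨u, hu⟩ := h
  have h67 : RB K 6 z ⊆ RB K 7 z := by
    intro x hx
    rw [mem_RB] at hx ⊢
    intro i
    obtain ⟨h1, h2⟩ := hx i
    push_cast at h1 h2 ⊢
    constructor <;> nlinarith [Int.natCast_nonneg K]
  obtain ⟨y, hy, hyc⟩ := hu c ((hc.trans ha).trans h67)
  obtain ⟨y', hy', hyc'⟩ := hu (fun i => (K : ℤ) * (z i + 7)) (by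
    intro x hx
    rw [mem_cb] at hx
    rw [mem_RB]
    intro i
    obtain ⟨h1, h2⟩ := hx i
    have h3 : (k : ℤ) ≤ (K : ℤ) := by exact_mod_cast hkK
    push_cast
    constructor <;> nlinarith [Int.natCast_nonneg K])
  refine ⟨y, hy, exit_cb (hc hy) (w := y') ?_ (conn_trans (conn_symm hyc) hyc')⟩
  intro h1
  have h2 := ha h1
  rw [mem_RB] at h2
  rw [mem_cb] at hy'
  have h3 := (h2 ⟨0, hd⟩).2
  have h4 := (hy' ⟨0, hd⟩).1
  push_cast at h3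
  linarith

theorem RB_sub {K b b' : ℕ} {z z' : Vx d} (h : ∀ i, |z i - z' i| + (b : ℤ) ≤ b') :
    RB K b z ⊆ RB K b' z' := by
  intro x hx
  rw [mem_RB] at hx ⊢
  intro i
  obtain ⟨h1, h2⟩ := hx i
  have h3 := h i
  have h4 := le_abs_self (z i - z' i)
  have h5 := neg_abs_le (z i - z' i)
  have h6 : (0 : ℤ) ≤ (K : ℤ) := Int.natCast_nonneg K
  constructor
  · refine le_trans (mul_le_mul_of_nonneg_left ?_ h6) h1
    linarith
  · refine lt_of_lt_of_le h2 (mul_le_mul_of_nonneg_left ?_ h6)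
    linarith

theorem RB_eq (K b : ℕ) (z : Vx d) : RB K b z = cb (lc K b z) (sd K b) := rfl

theorem uv_dist (z : Vx d) (i j : Fin d) : |(z + uv i) j - z j| ≤ 1 := by
  have h : (z + uv i) j - z j = (uv i : Vx d) j := by
    show z j + (uv i : Vx d) j - z j = _
    ring
  rw [h, uv_app]
  by_cases hji : j = i
  · rw [if_pos hji]
    decide
  · rw [if_neg hji]
    decide

theorem not_NJ (hd : 1 ≤ d) {k K : ℕ} (hK : 1 ≤ K) (hkK : k ≤ K) {z : Vx d} {ω : Finset (Ed d)}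
    (h : Vs k K 7 z ω) {z' : Vx d} (hz : ∀ i, |z' i - z i| ≤ 1) : ¬ NJ K 5 z' ω := by
  unfold NJ
  rw [not_not]
  have hs : cb (lc K 5 z') (sd K 5) ⊆ RB K 6 z := by
    rw [← RB_eq]
    refine RB_sub fun i => ?_
    have := hz i
    push_cast
    linarith
  have hc : cb (fun i => (K : ℤ) * z' i) k ⊆ cb (lc K 5 z') (sd K 5) := by
    intro x hx
    rw [← RB_eq, mem_RB]
    rw [mem_cb] at hx
    intro i
    obtain ⟨h1, h2⟩ := hx i
    have h3 : (k : ℤ) ≤ (K : ℤ) := by exact_mod_cast hkK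
    push_cast
    constructor <;> nlinarith [Int.natCast_nonneg K]
  obtain ⟨x, hx, hj⟩ := jn_of_Vs hd hkK h hs hc
  refine ⟨x, ?_, hj⟩
  rw [blk_eq hK]
  rw [mem_cb] at hx
  intro i
  obtain ⟨h1, h2⟩ := hx i
  have h3 : (k : ℤ) ≤ (K : ℤ) := by exact_mod_cast hkK
  exact ⟨h1, by linarith⟩

/-- on (Vs) the block can only be bad because of `Two` -/
theorem Two_of_BE (hd : 1 ≤ d) {k K : ℕ} (hK : 1 ≤ K) (hkK : k ≤ K) {z : Vx d} {ω : Finset (Ed d)}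
    (h : Vs k K 7 z ω) (hb : BE K 4 z ω) :
    Two (lc K 4 z) (sd K 4) (ω ∩ edg (RB K 4 z)) := by
  rcases hb with h1 | h1 | ⟨i, h1⟩
  · exact h1
  · exact absurd h1 (not_NJ hd hK hkK h fun i => by
      rw [sub_self, abs_zero]
      exact zero_le_one)
  · exact absurd h1 (not_NJ hd hK hkK h fun j => uv_dist z i j)

theorem Tiles_of_Vs (hd : 1 ≤ d) {k K : ℕ} (hkK : k ≤ K) {z : Vx d} {ω : Finset (Ed d)}
    (h : Vs k K 7 z ω) : Tiles (lc K 4 z) (sd K 4) k (ω ∩ edg (RB K 4 z)) := by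
  intro c hc
  refine jn_of_Vs hd hkK h ?_ hc
  rw [← RB_eq]
  refine RB_sub fun i => ?_
  rw [sub_self, abs_zero]
  norm_num

/-! ## locality -/

theorem inter_congr {ω ω' : Finset (Ed d)} {R V : Finset (Vx d)} (hV : V ⊆ R)
    (h : ω ∩ edg R = ω' ∩ edg R) : ω ∩ edg V = ω' ∩ edg V := by
  have he : edg V ⊆ edg R := by
    intro e he
    rw [mem_edg] at he ⊢
    exact ⟨hV he.1, hV he.2⟩
  have h1 : ∀ η : Finset (Ed d), η ∩ edg V = (η ∩ edg R) ∩ edg V := by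
    intro η
    rw [Finset.inter_assoc, Finset.inter_eq_right.2 he]
  rw [h1 ω, h1 ω', h]

theorem NJ_congr {K : ℕ} {z z' : Vx d} {ω ω' : Finset (Ed d)} (hz : ∀ i, |z' i - z i| ≤ 1)
    (h : ω ∩ edg (RB K 6 z) = ω' ∩ edg (RB K 6 z)) : NJ K 5 z' ω ↔ NJ K 5 z' ω' := by
  unfold NJ
  rw [inter_congr (RB_sub fun i => ?_) h]
  have := hz i
  push_cast
  linarith

/-- the bad event depends only on the edges of `RB K 6 z` -/
theorem BE_congr {K : ℕ} {z : Vx d} {ω ω' : Finset (Ed d)}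
    (h : ω ∩ edg (RB K 6 z) = ω' ∩ edg (RB K 6 z)) : BE K 4 z ω ↔ BE K 4 z ω' := by
  unfold BE
  have h1 : ω ∩ edg (RB K 4 z) = ω' ∩ edg (RB K 4 z) := by
    refine inter_congr (RB_sub fun i => ?_) h
    rw [sub_self, abs_zero]
    norm_num
  have h2 : NJ K (4 + 1) z ω ↔ NJ K (4 + 1) z ω' := NJ_congr (fun i => by
    rw [sub_self, abs_zero]
    exact zero_le_one) h
  have h3 : ∀ i, NJ K (4 + 1) (z + uv i) ω ↔ NJ K (4 + 1) (z + uv i) ω' := fun i =>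
    NJ_congr (fun j => uv_dist z i j) h
  rw [h1, h2]
  simp only [h3]

/-! ## expectations -/

theorem EB_nn {p : ℝ} (h0 : 0 ≤ p) (h1 : p ≤ 1) (E : Finset (Ed d)) {f : Finset (Ed d) → ℝ}
    (hf : ∀ c, 0 ≤ f c) : 0 ≤ EB p E f := by
  unfold EB
  refine Finset.sum_nonneg fun c _ => ?_
  have : 0 ≤ 1 - p := by linarith
  have := hf c
  positivity

theorem Q3_mono {x q : ℝ} (hx : 0 ≤ x) (h0 : 0 ≤ q) (h1 : q ≤ 1) (E : Finset (Ed d))
    (A1 A2 : Vx d → ZMod 2) {K L : Finset (Ed d) → Finset (Ed d) → Finset (Ed d) → ℝ}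
    (h : ∀ n1 n2 c, n1 ⊆ E → n2 ⊆ E → c ⊆ E → K n1 n2 c ≤ L n1 n2 c) :
    Q3 x q E A1 A2 K ≤ Q3 x q E A1 A2 L := by
  unfold Q3
  refine EL_mono _ hx zero_le_one _ _ _ _ fun n1 hn1 => ?_
  refine EL_mono _ hx zero_le_one _ _ _ _ fun n2 hn2 => ?_
  exact EB_mono _ h0 h1 _ _ _ fun c hc => h n1 n2 c hn1 hn2 hc

theorem Q3_congr {x q : ℝ} (E : Finset (Ed d))
    (A1 A2 : Vx d → ZMod 2) {K L : Finset (Ed d) → Finset (Ed d) → Finset (Ed d) → ℝ}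
    (h : ∀ n1 n2 c, n1 ⊆ E → n2 ⊆ E → c ⊆ E → K n1 n2 c = L n1 n2 c) :
    Q3 x q E A1 A2 K = Q3 x q E A1 A2 L := by
  unfold Q3
  refine EL_congr _ _ _ _ _ fun n1 hn1 => ?_
  refine EL_congr _ _ _ _ _ fun n2 hn2 => ?_
  exact EB_congr _ _ _ _ fun c hc => h n1 n2 c hn1 hn2 hc

theorem Q3_nn {x q : ℝ} (hx : 0 ≤ x) (h0 : 0 ≤ q) (h1 : q ≤ 1) (E : Finset (Ed d))
    (A1 A2 : Vx d → ZMod 2) {K : Finset (Ed d) → Finset (Ed d) → Finset (Ed d) → ℝ}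
    (h : ∀ n1 n2 c, 0 ≤ K n1 n2 c) : 0 ≤ Q3 x q E A1 A2 K := by
  unfold Q3
  refine EL_nonneg _ hx zero_le_one _ _ _ fun n1 _ => ?_
  refine EL_nonneg _ hx zero_le_one _ _ _ fun n2 _ => ?_
  exact EB_nn h0 h1 _ fun c => h n1 n2 c

theorem Q3_const (x q : ℝ) (E : Finset (Ed d)) (A1 A2 : Vx d → ZMod 2) (r : ℝ) :
    Q3 x q E A1 A2 (fun _ _ _ => r) = r * (ZZ (loopM x) E A1 * ZZ (loopM x) E A2) := by
  unfold Q3
  simp only [EB_const, EL_const]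
  ring

theorem Q3_add (x q : ℝ) (E : Finset (Ed d)) (A1 A2 : Vx d → ZMod 2)
    (K L : Finset (Ed d) → Finset (Ed d) → Finset (Ed d) → ℝ) :
    Q3 x q E A1 A2 (fun n1 n2 c => K n1 n2 c + L n1 n2 c) =
      Q3 x q E A1 A2 K + Q3 x q E A1 A2 L := by
  unfold Q3
  simp only [EB_add, EL_add]

theorem Q3_smul (x q : ℝ) (E : Finset (Ed d)) (A1 A2 : Vx d → ZMod 2) (r : ℝ)
    (K : Finset (Ed d) → Finset (Ed d) → Finset (Ed d) → ℝ) :
    Q3 x q E A1 A2 (fun n1 n2 c => r * K n1 n2 c) = r * Q3 x q E A1 A2 K := by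
  unfold Q3
  simp only [EB_smul, EL_smul]

theorem edg_mono' {R V : Finset (Vx d)} (hV : V ⊆ R) : edg V ⊆ edg R := by
  intro e he
  rw [mem_edg] at he ⊢
  exact ⟨hV he.1, hV he.2⟩

theorem union3_inter (a b c e : Finset (Ed d)) :
    (a ∪ b ∪ c) ∩ e = (a ∪ b) ∩ e ∪ (c ∩ e) := by
  rw [Finset.union_inter_distrib_right]

/-! ## the sourceless bound -/

/-- (U) inside a larger edge set, for fixed `n1`, `n2` -/
theorem two_le (hd : 1 ≤ d) {s : ℝ} (h0 : 0 ≤ s) (h1 : s ≤ 1) {k K : ℕ} (hkK : k ≤ K) {z : Vx d}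
    {ε : ℝ} (hU : ∀ Θ : Finset (Ed d), Θ ⊆ edg (RB K 4 z) →
      EB s (edg (RB K 4 z)) (fun c => ind (Two (lc K 4 z) (sd K 4) (Θ ∪ c))) ≤
        ε + ((sd K 4 : ℕ) : ℝ) ^ (d + 3) *
          EB s (edg (RB K 4 z)) (fun c => ind (¬ Tiles (lc K 4 z) (sd K 4) k (Θ ∪ c))))
    (n : Finset (Ed d)) :
    EB s (edg (RB K 8 z)) (fun c => ind (Two (lc K 4 z) (sd K 4) ((n ∪ c) ∩ edg (RB K 4 z)))) ≤
      ε + ((sd K 4 : ℕ) : ℝ) ^ (d + 3) *
        EB s (edg (RB K 8 z)) (fun c => ind (¬ Vs k K 7 z (n ∪ c))) := by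
  have hV : edg (RB K 4 z) ⊆ edg (RB K 8 z) := edg_mono' (RB_sub fun i => by
    rw [sub_self, abs_zero]
    norm_num)
  have e1 : EB s (edg (RB K 8 z))
      (fun c => ind (Two (lc K 4 z) (sd K 4) ((n ∪ c) ∩ edg (RB K 4 z)))) =
      EB s (edg (RB K 4 z)) (fun c => ind (Two (lc K 4 z) (sd K 4) ((n ∩ edg (RB K 4 z)) ∪ c))) := by
    rw [← EB_restrict s _ _ hV]
    refine EB_congr _ _ _ _ fun c _ => ?_
    rw [Finset.union_inter_distrib_right]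
  have e2 : EB s (edg (RB K 4 z))
      (fun c => ind (¬ Tiles (lc K 4 z) (sd K 4) k ((n ∩ edg (RB K 4 z)) ∪ c))) ≤
      EB s (edg (RB K 8 z)) (fun c => ind (¬ Vs k K 7 z (n ∪ c))) := by
    rw [← EB_restrict s _ _ hV]
    refine EB_mono _ h0 h1 _ _ _ fun c _ => ?_
    refine ind_mono fun h h' => h ?_
    rw [← Finset.union_inter_distrib_right]
    exact Tiles_of_Vs hd hkK h'
  rw [e1]
  refine (hU _ Finset.inter_subset_right).trans ?_
  have h3 : (0 : ℝ) ≤ ((sd K 4 : ℕ) : ℝ) ^ (d + 3) := by positivity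
  have h4 := mul_le_mul_of_nonneg_left e2 h3
  linarith

theorem sourceless (hd : 1 ≤ d) {x : ℝ} (hx : 0 ≤ x) (hx1 : x ≤ 1) {k K : ℕ} (hK : 1 ≤ K)
    (hkK : k ≤ K) {z : Vx d} {ε : ℝ} (hU : ∀ Θ : Finset (Ed d), Θ ⊆ edg (RB K 4 z) →
      EB (x ^ 2) (edg (RB K 4 z)) (fun c => ind (Two (lc K 4 z) (sd K 4) (Θ ∪ c))) ≤
        ε + ((sd K 4 : ℕ) : ℝ) ^ (d + 3) *
          EB (x ^ 2) (edg (RB K 4 z)) (fun c => ind (¬ Tiles (lc K 4 z) (sd K 4) k (Θ ∪ c)))) :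
    Q3 x (x ^ 2) (edg (RB K 8 z)) 0 0 (fun n1 n2 c => ind (BE K 4 z (n1 ∪ n2 ∪ c))) ≤
      ε * (ZZ (loopM x) (edg (RB K 8 z)) 0 * ZZ (loopM x) (edg (RB K 8 z)) 0) +
        (((sd K 4 : ℕ) : ℝ) ^ (d + 3) + 1) *
          Q3 x (x ^ 2) (edg (RB K 8 z)) 0 0 (fun n1 n2 c => ind (¬ Vs k K 7 z (n1 ∪ n2 ∪ c))) := by
  have hq0 : (0 : ℝ) ≤ x ^ 2 := by positivity
  have hq1 : x ^ 2 ≤ 1 := pow_le_one₀ hx hx1
  have h1 : Q3 x (x ^ 2) (edg (RB K 8 z)) 0 0 (fun n1 n2 c => ind (BE K 4 z (n1 ∪ n2 ∪ c))) ≤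
      Q3 x (x ^ 2) (edg (RB K 8 z)) 0 0 (fun n1 n2 c =>
        ind (Two (lc K 4 z) (sd K 4) ((n1 ∪ n2 ∪ c) ∩ edg (RB K 4 z))) +
          ind (¬ Vs k K 7 z (n1 ∪ n2 ∪ c))) := by
    refine Q3_mono hx hq0 hq1 _ _ _ fun n1 n2 c _ _ _ => ?_
    by_cases hv : Vs k K 7 z (n1 ∪ n2 ∪ c)
    · have h2 := ind_nonneg (¬ Vs k K 7 z (n1 ∪ n2 ∪ c))
      have h3 : ind (BE K 4 z (n1 ∪ n2 ∪ c)) ≤
          ind (Two (lc K 4 z) (sd K 4) ((n1 ∪ n2 ∪ c) ∩ edg (RB K 4 z))) :=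
        ind_mono fun h => Two_of_BE hd hK hkK hv h
      linarith
    · rw [ind_true hv]
      have h2 := ind_nonneg (Two (lc K 4 z) (sd K 4) ((n1 ∪ n2 ∪ c) ∩ edg (RB K 4 z)))
      have h3 := ind_le_one (BE K 4 z (n1 ∪ n2 ∪ c))
      linarith
  rw [Q3_add] at h1
  have h2 : Q3 x (x ^ 2) (edg (RB K 8 z)) 0 0 (fun n1 n2 c =>
      ind (Two (lc K 4 z) (sd K 4) ((n1 ∪ n2 ∪ c) ∩ edg (RB K 4 z)))) ≤
      ε * (ZZ (loopM x) (edg (RB K 8 z)) 0 * ZZ (loopM x) (edg (RB K 8 z)) 0) +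
        ((sd K 4 : ℕ) : ℝ) ^ (d + 3) *
          Q3 x (x ^ 2) (edg (RB K 8 z)) 0 0 (fun n1 n2 c => ind (¬ Vs k K 7 z (n1 ∪ n2 ∪ c))) := by
    have e1 : ε * (ZZ (loopM x) (edg (RB K 8 z)) 0 * ZZ (loopM x) (edg (RB K 8 z)) 0) +
        ((sd K 4 : ℕ) : ℝ) ^ (d + 3) *
          Q3 x (x ^ 2) (edg (RB K 8 z)) 0 0 (fun n1 n2 c => ind (¬ Vs k K 7 z (n1 ∪ n2 ∪ c))) =
        EL (loopM x) (edg (RB K 8 z)) 0 (fun n1 => EL (loopM x) (edg (RB K 8 z)) 0 (fun n2 =>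
          ε + ((sd K 4 : ℕ) : ℝ) ^ (d + 3) * EB (x ^ 2) (edg (RB K 8 z))
            (fun c => ind (¬ Vs k K 7 z (n1 ∪ n2 ∪ c))))) := by
      unfold Q3
      simp only [EL_add, EL_const, EL_smul]
      ring
    rw [e1]
    unfold Q3
    refine EL_mono _ hx zero_le_one _ _ _ _ fun n1 _ => ?_
    refine EL_mono _ hx zero_le_one _ _ _ _ fun n2 _ => ?_
    exact two_le hd hq0 hq1 hkK hU (n1 ∪ n2)
  have h3 : (((sd K 4 : ℕ) : ℝ) ^ (d + 3) + 1) *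
      Q3 x (x ^ 2) (edg (RB K 8 z)) 0 0 (fun n1 n2 c => ind (¬ Vs k K 7 z (n1 ∪ n2 ∪ c))) =
      ((sd K 4 : ℕ) : ℝ) ^ (d + 3) *
        Q3 x (x ^ 2) (edg (RB K 8 z)) 0 0 (fun n1 n2 c => ind (¬ Vs k K 7 z (n1 ∪ n2 ∪ c))) +
      Q3 x (x ^ 2) (edg (RB K 8 z)) 0 0 (fun n1 n2 c => ind (¬ Vs k K 7 z (n1 ∪ n2 ∪ c))) := by
    ring
  rw [h3]
  linarith

/-! ## the transfer to arbitrary sources -/

theorem fat_eq (K : ℕ) (z : Vx d) :
    S1.fat (lc K 6 z) (fun i => lc K 6 z i + (sd K 6 : ℤ) - 1) (2 * K) = RB K 8 z := by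
  unfold S1.fat RB cb
  congr 1
  · funext i
    unfold lc
    push_cast
    ring
  · funext i
    unfold lc sd
    push_cast
    ring

theorem core_eq (K : ℕ) (z : Vx d) :
    Finset.Icc (lc K 6 z) (fun i => lc K 6 z i + (sd K 6 : ℤ) - 1) = RB K 6 z := rfl

theorem adm_eq {K : ℕ} (hK : 1 ≤ K) (z : Vx d) :
    S1.Adm 7 (2 * K) (lc K 6 z) (fun i => lc K 6 z i + (sd K 6 : ℤ) - 1) := by
  intro i
  have h : (1 : ℤ) ≤ (K : ℤ) := by exact_mod_cast hK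
  unfold sd
  push_cast
  constructor <;> linarith

theorem outer_eq {K : ℕ} {z : Vx d} {S : Vx d → ZMod 2} (h : Out K 8 z S) :
    S1.Outer (lc K 6 z) (fun i => lc K 6 z i + (sd K 6 : ℤ) - 1) (2 * K) S := by
  intro v hv
  refine h v fun i => ?_
  obtain ⟨h1, h2⟩ := hv i
  unfold lc at h1
  unfold lc sd at h2
  unfold lc sd
  push_cast at h1 h2 ⊢
  constructor <;> linarith

theorem transfer {x : ℝ} (hx : 0 ≤ x) (hx1 : x ≤ 1) {ε : ℝ} (hε : 0 ≤ ε) {K : ℕ} {z : Vx d}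
    {S S' : Vx d → ZMod 2}
    (hfac : ∀ y, y ⊆ edg (RB K 6 z) →
      ZZ (loopM x) (edg (RB K 8 z) \ edg (RB K 6 z)) (bd y + S) *
        ZZ (loopM x) (edg (RB K 8 z) \ edg (RB K 6 z)) 0 ≤
      (1 + ε) * (ZZ (loopM x) (edg (RB K 8 z) \ edg (RB K 6 z)) (bd y) *
        ZZ (loopM x) (edg (RB K 8 z) \ edg (RB K 6 z)) S))
    (hfac' : ∀ y, y ⊆ edg (RB K 6 z) →
      ZZ (loopM x) (edg (RB K 8 z) \ edg (RB K 6 z)) (bd y + S') *
        ZZ (loopM x) (edg (RB K 8 z) \ edg (RB K 6 z)) 0 ≤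
      (1 + ε) * (ZZ (loopM x) (edg (RB K 8 z) \ edg (RB K 6 z)) (bd y) *
        ZZ (loopM x) (edg (RB K 8 z) \ edg (RB K 6 z)) S')) :
    Q3 x (x ^ 2) (edg (RB K 8 z)) S S' (fun n1 n2 c => ind (BE K 4 z (n1 ∪ n2 ∪ c))) *
        (ZZ (loopM x) (edg (RB K 8 z)) 0 * ZZ (loopM x) (edg (RB K 8 z)) 0) ≤
      (1 + ε) ^ 2 *
        (Q3 x (x ^ 2) (edg (RB K 8 z)) 0 0 (fun n1 n2 c => ind (BE K 4 z (n1 ∪ n2 ∪ c))) *
          (ZZ (loopM x) (edg (RB K 8 z)) S * ZZ (loopM x) (edg (RB K 8 z)) S')) := by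
  have hq0 : (0 : ℝ) ≤ x ^ 2 := by positivity
  have hq1 : x ^ 2 ≤ 1 := pow_le_one₀ hx hx1
  have hT : edg (RB K 6 z) ⊆ edg (RB K 8 z) := edg_mono' (RB_sub fun i => by
    rw [sub_self, abs_zero]
    norm_num)
  have key := Rm.RMu2 (x := x) (F := edg (RB K 8 z)) (T := edg (RB K 6 z)) (S := S) (S' := S')
    (g := fun y y' => EB (x ^ 2) (edg (RB K 8 z)) (fun c => ind (BE K 4 z (y ∪ y' ∪ c)))) hx hx1 hε
    hT (fun y y' _ _ => EB_nn hq0 hq1 _ fun c => ind_nonneg _) hfac hfac'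
  have e : ∀ A B : Vx d → ZMod 2,
      Q3 x (x ^ 2) (edg (RB K 8 z)) A B (fun n1 n2 c => ind (BE K 4 z (n1 ∪ n2 ∪ c))) =
        EL (loopM x) (edg (RB K 8 z)) A (fun η => EL (loopM x) (edg (RB K 8 z)) B (fun η' =>
          (fun y y' => EB (x ^ 2) (edg (RB K 8 z)) (fun c => ind (BE K 4 z (y ∪ y' ∪ c))))
            (η ∩ edg (RB K 6 z)) (η' ∩ edg (RB K 6 z)))) := by
    intro A B
    unfold Q3
    refine EL_congr _ _ _ _ _ fun n1 _ => ?_
    refine EL_congr _ _ _ _ _ fun n2 _ => ?_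
    refine EB_congr _ _ _ _ fun c _ => ?_
    refine ind_congr (BE_congr ?_)
    ext e
    simp only [Finset.mem_inter, Finset.mem_union]
    tauto
  rw [e S S', e 0 0]
  exact key

/-! ## the theorem -/

theorem num (d : ℕ) {ε : ℝ} (hε : 0 < ε) : ∃ K0 : ℕ, ∀ K : ℕ, K0 ≤ K →
    ((sd K 4 : ℕ) : ℝ) ^ (d + 3) + 1 ≤ ε * (K : ℝ) ^ (d + 4) := by
  obtain ⟨K1, hK1⟩ := exists_nat_gt ((9 ^ (d + 3) + 1) / ε)
  refine ⟨max K1 1, fun K hK => ?_⟩
  have h1 : (1 : ℝ) ≤ (K : ℝ) := by exact_mod_cast (le_max_right K1 1).trans hK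
  have h2 : (K1 : ℝ) ≤ (K : ℝ) := by exact_mod_cast (le_max_left K1 1).trans hK
  have h3 : (9 ^ (d + 3) + 1) / ε < (K : ℝ) := hK1.trans_le h2
  rw [div_lt_iff₀ hε] at h3
  have h4 : ((sd K 4 : ℕ) : ℝ) = 9 * (K : ℝ) := by
    unfold sd
    push_cast
    ring
  have h5 : (1 : ℝ) ≤ (K : ℝ) ^ (d + 3) := one_le_pow₀ h1
  rw [h4, mul_pow, pow_succ (K : ℝ) (d + 3)]
  calc (9 : ℝ) ^ (d + 3) * (K : ℝ) ^ (d + 3) + 1
      ≤ 9 ^ (d + 3) * (K : ℝ) ^ (d + 3) + (K : ℝ) ^ (d + 3) := by linarith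
    _ = (9 ^ (d + 3) + 1) * (K : ℝ) ^ (d + 3) := by ring
    _ ≤ (K * ε) * (K : ℝ) ^ (d + 3) := mul_le_mul_of_nonneg_right h3.le (by positivity)
    _ = ε * ((K : ℝ) ^ (d + 3) * K) := by ring

theorem bgp (hd : 1 ≤ d) {x : ℝ} (hx : 0 < x) (hx1 : x ≤ 1) (hF : S1.FAC d x) (hV : VIS d x)
    (hU : UU d (x ^ 2)) : BGP d x := by
  intro ε hε
  obtain ⟨δ, hδ, n0, hU'⟩ := hU (ε / 8) (by positivity)
  obtain ⟨t0, hF'⟩ := hF 7 1 one_pos
  obtain ⟨K1, hK1⟩ := hV 7 (d + 4) (min δ 1) (lt_min hδ one_pos)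
  obtain ⟨K2, hK2⟩ := num d (ε := ε / 8) (by positivity)
  refine ⟨max (max n0 t0) (max K1 (max K2 1)), fun K hK z S1' S2' hS1 hS2 => ?_⟩
  have a1 : n0 ≤ K := ((le_max_left _ _).trans (le_max_left _ _)).trans hK
  have a2 : t0 ≤ K := ((le_max_right _ _).trans (le_max_left _ _)).trans hK
  have a3 : K1 ≤ K := ((le_max_left _ _).trans (le_max_right _ _)).trans hK
  have a4 : K2 ≤ K := ((le_max_left _ _).trans ((le_max_right _ _).trans (le_max_right _ _))).trans hK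
  have a5 : 1 ≤ K := ((le_max_right _ _).trans ((le_max_right _ _).trans (le_max_right _ _))).trans hK
  have hKR : (1 : ℝ) ≤ (K : ℝ) := by exact_mod_cast a5
  obtain ⟨k, hk1, hk2, hk3⟩ := hK1 K a3
  have hlog : 0 ≤ Real.log K := Real.log_nonneg hKR
  have hkK : k ≤ K := by
    have h1 : (k : ℝ) ≤ Real.log K := by
      refine hk2.trans ?_
      calc min δ 1 * Real.log K ≤ 1 * Real.log K :=
            mul_le_mul_of_nonneg_right (min_le_right _ _) hlog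
        _ = Real.log K := one_mul _
    have h2 : Real.log K ≤ (K : ℝ) := (Real.log_le_sub_one_of_pos (by linarith)).trans (by linarith)
    exact_mod_cast h1.trans h2
  have hsd : K ≤ sd K 4 := by
    unfold sd
    omega
  have hkn : (k : ℝ) ≤ δ * Real.log ((sd K 4 : ℕ) : ℝ) := by
    refine hk2.trans ?_
    have h1 : Real.log K ≤ Real.log ((sd K 4 : ℕ) : ℝ) :=
      Real.log_le_log (by linarith) (by exact_mod_cast hsd)
    calc min δ 1 * Real.log K ≤ δ * Real.log K :=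
          mul_le_mul_of_nonneg_right (min_le_left _ _) hlog
      _ ≤ δ * Real.log ((sd K 4 : ℕ) : ℝ) := mul_le_mul_of_nonneg_left h1 hδ.le
  set F := edg (RB K 8 z) with hFdef
  set Z0 := ZZ (loopM x) F 0 with hZ0
  set Z1 := ZZ (loopM x) F S1' with hZ1
  set Z2 := ZZ (loopM x) F S2' with hZ2
  have pZ0 : 0 < Z0 := lt_of_lt_of_le one_pos (ZZ_zero_ge x hx.le F)
  have pZ1 : 0 ≤ Z1 := ZZ_nonneg _ hx.le zero_le_one _ _
  have pZ2 : 0 ≤ Z2 := ZZ_nonneg _ hx.le zero_le_one _ _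
  have hsl := sourceless hd hx.le hx1 a5 hkK (z := z) (ε := ε / 8) (fun Θ hΘ =>
    hU' (sd K 4) k (a1.trans hsd) hk1 hkn (lc K 4 z) Θ hΘ)
  have hv := hk3 z
  set V := Q3 x (x ^ 2) F 0 0 (fun n1 n2 c => ind (¬ Vs k K 7 z (n1 ∪ n2 ∪ c))) with hVdef
  have pV : 0 ≤ V := Q3_nn hx.le (by positivity) (pow_le_one₀ hx.le hx1) _ _ _ fun _ _ _ => ind_nonneg _
  have hv' : (K : ℝ) ^ (d + 4) * V ≤ Z0 * Z0 := hv
  have h1 : (((sd K 4 : ℕ) : ℝ) ^ (d + 3) + 1) * V ≤ ε / 8 * (Z0 * Z0) := by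
    calc (((sd K 4 : ℕ) : ℝ) ^ (d + 3) + 1) * V ≤ (ε / 8 * (K : ℝ) ^ (d + 4)) * V :=
          mul_le_mul_of_nonneg_right (hK2 K a4) pV
      _ = ε / 8 * ((K : ℝ) ^ (d + 4) * V) := by ring
      _ ≤ ε / 8 * (Z0 * Z0) := mul_le_mul_of_nonneg_left hv' (by positivity)
  have h2 : Q3 x (x ^ 2) F 0 0 (fun n1 n2 c => ind (BE K 4 z (n1 ∪ n2 ∪ c))) ≤
      ε / 4 * (Z0 * Z0) := by
    refine hsl.trans ?_
    linarith
  have hfac : ∀ S : Vx d → ZMod 2, Out K 8 z S → ∀ y, y ⊆ edg (RB K 6 z) →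
      ZZ (loopM x) (edg (RB K 8 z) \ edg (RB K 6 z)) (bd y + S) *
        ZZ (loopM x) (edg (RB K 8 z) \ edg (RB K 6 z)) 0 ≤
      (1 + 1) * (ZZ (loopM x) (edg (RB K 8 z) \ edg (RB K 6 z)) (bd y) *
        ZZ (loopM x) (edg (RB K 8 z) \ edg (RB K 6 z)) S) := by
    intro S hS y hy
    have h := hF' (2 * K) (by omega) (lc K 6 z) (fun i => lc K 6 z i + (sd K 6 : ℤ) - 1)
      (adm_eq a5 z) y S hy (outer_eq hS)
    rw [fat_eq, core_eq] at h
    exact h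
  have htr := transfer hx.le hx1 zero_le_one (hfac S1' hS1) (hfac S2' hS2)
  have h3 : Q3 x (x ^ 2) F S1' S2' (fun n1 n2 c => ind (BE K 4 z (n1 ∪ n2 ∪ c))) * (Z0 * Z0) ≤
      (1 + 1) ^ 2 * (ε / 4 * (Z0 * Z0) * (Z1 * Z2)) := by
    refine htr.trans (mul_le_mul_of_nonneg_left ?_ (by norm_num))
    exact mul_le_mul_of_nonneg_right h2 (mul_nonneg pZ1 pZ2)
  have pZZ : 0 < Z0 * Z0 := mul_pos pZ0 pZ0
  refine le_of_mul_le_mul_right (h3.trans (le_of_eq ?_)) pZZ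
  ring

end Pool.Agent.Bg
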